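import Mathlib

set_option autoImplicit false

/-!
# The non-monotone consecutive pattern `12435` is stable

Two different occurrences of `12435` in a word which overlap start at distance `3` or `4`, and the
letters of a union of overlapping occurrences are totally ordered in such a way that neighbours in
this order lie in a common occurrence. Fix a set `J` of indices and adjacent letters `a`, `b = a + 1`.
In the words in which `J` consists of indices of occurrences, exchange `a` and `b` at all positions
except at those which lie together with the other letter in an occurrence with index in `J`. This is a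
bijection which exchanges the multiplicities of `a` and `b`. Inclusion-exclusion over `J` finishes the
proof.
-/

namespace Pool.Agent.Results.MP_5514a7_co.StableNonMonotone

open Finset

/-- `j` (counted from `0`) is the index of an occurrence of the consecutive pattern `p` in the word
`w`: the factor of length `ℓ` of `w` which starts at `j` is order-isomorphic to `p`. -/
def IsOcc {ℓ n N : ℕ} (p : Equiv.Perm (Fin ℓ)) (w : Fin N → Fin n) (j : ℕ) : Prop :=
  ∃ h : j + ℓ ≤ N, ∀ a b : Fin ℓ,
    (w ⟨j + a, by omega⟩ < w ⟨j + b, by omega⟩ ↔ p a < p b)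

open Classical in
/-- The set of the indices of the occurrences of `p` in `w`. -/
noncomputable def occSet {ℓ n N : ℕ} (p : Equiv.Perm (Fin ℓ)) (w : Fin N → Fin n) : Finset ℕ :=
  (range (N + 1)).filter fun j => IsOcc p w j

/-- The set of the words of length `N` over the alphabet `Fin n` in which each letter `c` appears
exactly `k c` times and in which `p` has exactly `s` occurrences. -/
def words {ℓ n : ℕ} (p : Equiv.Perm (Fin ℓ)) (N : ℕ) (k : Fin n → ℕ) (s : ℕ) :
    Set (Fin N → Fin n) :=
  {w | (∀ c, (univ.filter fun x => w x = c).card = k c) ∧ (occSet p w).card = s}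

/-- `|M(k)^*(p; s)|`: the number of the permutations of the multiset with `k c` copies of the letter
`c` which contain exactly `s` occurrences of the consecutive pattern `p`. -/
noncomputable def count {ℓ n : ℕ} (p : Equiv.Perm (Fin ℓ)) (k : Fin n → ℕ) (s : ℕ) : ℕ :=
  (words p (∑ c, k c) k s).ncard

/-- The consecutive pattern `p` is stable: the distribution of its occurrences on the permutations of
a multiset does not change when the multiplicities of the letters are permuted. -/
def Stable {ℓ : ℕ} (p : Equiv.Perm (Fin ℓ)) : Prop :=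
  ∀ (n : ℕ) (k : Fin n → ℕ) (σ : Equiv.Perm (Fin n)) (s : ℕ),
    count p k s = count p (fun c => k (σ c)) s

/-- The pattern `p` is `12⋯ℓ` or `ℓ⋯21`. -/
def IsMonotonePattern {ℓ : ℕ} (p : Equiv.Perm (Fin ℓ)) : Prop :=
  (∀ a b : Fin ℓ, a < b → p a < p b) ∨ (∀ a b : Fin ℓ, a < b → p b < p a)

/-- The pattern `12435` (with values `0, …, 4`). -/
def pat : Equiv.Perm (Fin 5) := Equiv.swap 2 3

/-! ### local structure -/

/-- chain condition of an occurrence at `t` -/
def Ch (v : ℕ → ℕ) (t : ℕ) : Prop :=
  v t < v (t + 1) ∧ v (t + 1) < v (t + 3) ∧ v (t + 3) < v (t + 2) ∧ v (t + 2) < v (t + 4)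

lemma ch_inj {v : ℕ → ℕ} {t x y : ℕ} (h : Ch v t) (hx : t ≤ x) (hx' : x ≤ t + 4) (hy : t ≤ y)
    (hy' : y ≤ t + 4) (hxy : v x = v y) : x = y := by
  obtain ⟨h1, h2, h3, h4⟩ := h
  obtain ⟨i, rfl⟩ := Nat.exists_eq_add_of_le hx
  obtain ⟨j, rfl⟩ := Nat.exists_eq_add_of_le hy
  have hi : i ≤ 4 := by omega
  have hj : j ≤ 4 := by omega
  interval_cases i <;> interval_cases j <;> (try simp only [add_zero] at *) <;> omega

lemma ch_unique_aux {v : ℕ → ℕ} {a t t' x y y' : ℕ} (h : Ch v t) (h' : Ch v t') (htt : t ≤ t')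
    (hx : t ≤ x) (hx2 : x ≤ t + 4) (hx3 : t' ≤ x) (hx4 : x ≤ t' + 4)
    (hy : t ≤ y) (hy2 : y ≤ t + 4) (hy3 : t' ≤ y') (hy4 : y' ≤ t' + 4)
    (hv : (v x = a ∧ v y = a + 1 ∧ v y' = a + 1) ∨ (v x = a + 1 ∧ v y = a ∧ v y' = a)) :
    y = y' := by
  rcases Nat.eq_or_lt_of_le htt with rfl | hlt
  · refine ch_inj h hy hy2 hy3 hy4 (by omega)
  · exfalso
    obtain ⟨d, rfl⟩ := Nat.exists_eq_add_of_lt hlt
    obtain ⟨h1, h2, h3, h4⟩ := h
    obtain ⟨g1, g2, g3, g4⟩ := h'
    have hd : d ≤ 3 := by omega
    interval_cases d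
    · simp only [add_zero, add_assoc, Nat.reduceAdd] at *
      omega
    · simp only [add_zero, add_assoc, Nat.reduceAdd] at *
      omega
    · obtain ⟨i, rfl⟩ := Nat.exists_eq_add_of_le hx3
      obtain ⟨j, rfl⟩ := Nat.exists_eq_add_of_le hy
      obtain ⟨j', rfl⟩ := Nat.exists_eq_add_of_le hy3
      have hi : i ≤ 1 := by omega
      have hj : j ≤ 4 := by omega
      have hj' : j' ≤ 4 := by omega
      interval_cases i <;> interval_cases j <;> interval_cases j' <;>
        simp only [add_zero, add_assoc, Nat.reduceAdd] at * <;> omega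
    · obtain ⟨i, rfl⟩ := Nat.exists_eq_add_of_le hx3
      obtain ⟨j, rfl⟩ := Nat.exists_eq_add_of_le hy
      obtain ⟨j', rfl⟩ := Nat.exists_eq_add_of_le hy3
      have hi : i ≤ 0 := by omega
      have hj : j ≤ 4 := by omega
      have hj' : j' ≤ 4 := by omega
      interval_cases i <;> interval_cases j <;> interval_cases j' <;>
        simp only [add_zero, add_assoc, Nat.reduceAdd] at * <;> omega

lemma ch_unique {v : ℕ → ℕ} {a t t' x y y' : ℕ} (h : Ch v t) (h' : Ch v t')
    (hx : t ≤ x) (hx2 : x ≤ t + 4) (hx3 : t' ≤ x) (hx4 : x ≤ t' + 4)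
    (hy : t ≤ y) (hy2 : y ≤ t + 4) (hy3 : t' ≤ y') (hy4 : y' ≤ t' + 4)
    (hv : (v x = a ∧ v y = a + 1 ∧ v y' = a + 1) ∨ (v x = a + 1 ∧ v y = a ∧ v y' = a)) :
    y = y' := by
  rcases le_total t t' with htt | htt
  · exact ch_unique_aux h h' htt hx hx2 hx3 hx4 hy hy2 hy3 hy4 hv
  · exact (ch_unique_aux (a := a) h' h htt hx3 hx4 hx hx2 hy3 hy4 hy hy2 (by tauto)).symm

/-! ### the exchange of two adjacent letters -/

/-- values as a function on `ℕ` -/
def val {n N : ℕ} (w : Fin N → Fin n) (x : ℕ) : ℕ := if h : x < N then (w ⟨x, h⟩ : ℕ) else 0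

lemma val_eq {n N : ℕ} (w : Fin N → Fin n) (x : Fin N) : val w x = (w x : ℕ) := by
  simp [val]

lemma isOcc_iff {n N : ℕ} (w : Fin N → Fin n) (t : ℕ) :
    IsOcc pat w t ↔ t + 5 ≤ N ∧ Ch (val w) t := by
  have e0 : pat 0 = 0 := by decide
  have e1 : pat 1 = 1 := by decide
  have e2 : pat 2 = 3 := by decide
  have e3 : pat 3 = 2 := by decide
  have e4 : pat 4 = 4 := by decide
  constructor
  · rintro ⟨h, H⟩
    refine ⟨h, ?_⟩
    have hv : ∀ i : Fin 5, val w (t + i) = (w ⟨t + i, by omega⟩ : ℕ) := by
      intro i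
      exact val_eq w ⟨t + i, by omega⟩
    have h1 := (H 0 1).2 (by decide)
    have h2 := (H 1 3).2 (by decide)
    have h3 := (H 3 2).2 (by decide)
    have h4 := (H 2 4).2 (by decide)
    rw [Fin.lt_def, ← hv, ← hv] at h1 h2 h3 h4
    exact ⟨h1, h2, h3, h4⟩
  · rintro ⟨h, h1, h2, h3, h4⟩
    refine ⟨h, ?_⟩
    intro a b
    have hv : ∀ i : Fin 5, (w ⟨t + i, by omega⟩ : ℕ) = val w (t + i) := by
      intro i
      exact (val_eq w ⟨t + i, by omega⟩).symm
    rw [Fin.lt_def, hv, hv]
    fin_cases a <;> fin_cases b <;> simp [e0, e1, e2, e3, e4] <;> omega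

section exchange

variable {m N : ℕ} (i : Fin m) (J : Finset ℕ) (w : Fin N → Fin (m + 1))

/-- exchange of the letters `i` and `i + 1` -/
abbrev sw : Equiv.Perm (Fin (m + 1)) := Equiv.swap i.castSucc i.succ

/-- `x` and `y` lie in a common window, and `w x`, `w y` are the two letters `i`, `i + 1` -/
def Rel (x y : Fin N) : Prop :=
  (∃ t ∈ J, t ≤ x ∧ (x : ℕ) ≤ t + 4 ∧ t ≤ y ∧ (y : ℕ) ≤ t + 4) ∧ w y = sw i (w x) ∧ w y ≠ w x

/-- locked positions -/
def Locked (x : Fin N) : Prop := ∃ y, Rel i J w x y

open Classical in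
/-- exchange the letters at the positions which are not locked -/
noncomputable def phi (x : Fin N) : Fin (m + 1) := if Locked i J w x then w x else sw i (w x)

lemma rel_symm {x y : Fin N} (h : Rel i J w x y) : Rel i J w y x := by
  obtain ⟨⟨t, ht, h1, h2, h3, h4⟩, h5, h6⟩ := h
  refine ⟨⟨t, ht, h3, h4, h1, h2⟩, ?_, Ne.symm h6⟩
  rw [h5]
  simp

lemma sw_cases (c : Fin (m + 1)) : sw i c = c ∧ (c : ℕ) ≠ i ∧ (c : ℕ) ≠ i + 1 ∨
    (c : ℕ) = i ∧ (sw i c : ℕ) = i + 1 ∨ (c : ℕ) = i + 1 ∧ (sw i c : ℕ) = i := by
  by_cases h1 : c = i.castSucc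
  · right; left
    subst h1
    simp [sw]
  · by_cases h2 : c = i.succ
    · right; right
      subst h2
      simp [sw]
    · left
      refine ⟨Equiv.swap_apply_of_ne_of_ne h1 h2, ?_, ?_⟩
      · intro h
        exact h1 (Fin.ext h)
      · intro h
        exact h2 (Fin.ext h)

variable (hJ : ∀ t ∈ J, IsOcc pat w t)

include hJ in
lemma win_inj {t : ℕ} (ht : t ∈ J) {x y : Fin N} (h1 : t ≤ x) (h2 : (x : ℕ) ≤ t + 4) (h3 : t ≤ y)
    (h4 : (y : ℕ) ≤ t + 4) (hxy : w x = w y) : x = y := by
  have h := ((isOcc_iff w t).1 (hJ t ht)).2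
  have := ch_inj h h1 h2 h3 h4 (by rw [val_eq, val_eq, hxy])
  exact Fin.ext this

include hJ in
lemma phi_lt_iff {t : ℕ} (ht : t ∈ J) {x y : Fin N} (h1 : t ≤ x) (h2 : (x : ℕ) ≤ t + 4)
    (h3 : t ≤ y) (h4 : (y : ℕ) ≤ t + 4) : phi i J w x < phi i J w y ↔ w x < w y := by
  by_cases hxy : w x = w y
  · have := win_inj J w hJ ht h1 h2 h3 h4 hxy
    subst this
    simp
  by_cases hr : w y = sw i (w x)
  · have hrel : Rel i J w x y := ⟨⟨t, ht, h1, h2, h3, h4⟩, hr, Ne.symm hxy⟩
    have e1 : phi i J w x = w x := if_pos ⟨y, hrel⟩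
    have e2 : phi i J w y = w y := if_pos ⟨x, rel_symm i J w hrel⟩
    rw [e1, e2]
  · have hx := sw_cases i (w x)
    have hy := sw_cases i (w y)
    have hr' : (w y : ℕ) ≠ (sw i (w x) : ℕ) := fun h => hr (Fin.ext h)
    have hxy' : (w x : ℕ) ≠ (w y : ℕ) := fun h => hxy (Fin.ext h)
    have e1 : phi i J w x = w x ∨ phi i J w x = sw i (w x) := by
      unfold phi
      split_ifs
      · left; rfl
      · right; rfl
    have e2 : phi i J w y = w y ∨ phi i J w y = sw i (w y) := by
      unfold phi
      split_ifs
      · left; rfl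
      · right; rfl
    rcases hx with hx | hx | hx
    · rw [hx.1] at e1
      have e1' : phi i J w x = w x := by tauto
      rw [e1', Fin.lt_def, Fin.lt_def]
      rcases e2 with e2 | e2 <;> rw [e2]
      rcases hy with hy | hy | hy
      · rw [hy.1]
      · omega
      · omega
    · rcases hy with hy | hy | hy
      · rw [hy.1] at e2
        have e2' : phi i J w y = w y := by tauto
        rw [e2', Fin.lt_def, Fin.lt_def]
        rcases e1 with e1 | e1 <;> rw [e1]
        omega
      · omega
      · omega
    · rcases hy with hy | hy | hy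
      · rw [hy.1] at e2
        have e2' : phi i J w y = w y := by tauto
        rw [e2', Fin.lt_def, Fin.lt_def]
        rcases e1 with e1 | e1 <;> rw [e1]
        omega
      · omega
      · omega

include hJ in
lemma phi_occ : ∀ t ∈ J, IsOcc pat (phi i J w) t := by
  intro t ht
  obtain ⟨h, H⟩ := hJ t ht
  refine ⟨h, ?_⟩
  intro a b
  rw [← H a b]
  apply phi_lt_iff i J w hJ ht <;> simp <;> omega

include hJ in
lemma locked_phi (x : Fin N) : Locked i J (phi i J w) x ↔ Locked i J w x := by
  constructor
  · rintro ⟨y, ⟨t, ht, h1, h2, h3, h4⟩, h5, h6⟩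
    by_contra hno
    have e1 : phi i J w x = sw i (w x) := if_neg hno
    by_cases hy : Locked i J w y
    · have e2 : phi i J w y = w y := if_pos hy
      rw [e1, e2] at h5 h6
      have h7 : w y = w x := by rw [h5]; simp
      have := win_inj J w hJ ht h3 h4 h1 h2 h7
      subst this
      exact hno hy
    · have e2 : phi i J w y = sw i (w y) := if_neg hy
      rw [e1, e2] at h5 h6
      have h7 : w y = sw i (w x) := (sw i).injective h5
      apply hno
      refine ⟨y, ⟨t, ht, h1, h2, h3, h4⟩, h7, ?_⟩
      intro h8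
      exact h6 (by rw [h8])
  · rintro ⟨y, hr⟩
    have e1 : phi i J w x = w x := if_pos ⟨y, hr⟩
    have e2 : phi i J w y = w y := if_pos ⟨x, rel_symm i J w hr⟩
    refine ⟨y, hr.1, ?_, ?_⟩
    · rw [e1, e2]; exact hr.2.1
    · rw [e1, e2]; exact hr.2.2

include hJ in
lemma phi_phi : phi i J (phi i J w) = w := by
  funext x
  by_cases h : Locked i J w x
  · have h1 : phi i J w x = w x := if_pos h
    have h2 : phi i J (phi i J w) x = phi i J w x := if_pos ((locked_phi i J w hJ x).2 h)
    rw [h2, h1]
  · have h1 : phi i J w x = sw i (w x) := if_neg h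
    have h2 : phi i J (phi i J w) x = sw i (phi i J w x) :=
      if_neg (fun h' => h ((locked_phi i J w hJ x).1 h'))
    rw [h2, h1]
    simp

include hJ in
lemma rel_unique {x y y' : Fin N} (h : Rel i J w x y) (h' : Rel i J w x y') : y = y' := by
  obtain ⟨⟨t, ht, h1, h2, h3, h4⟩, h5, h6⟩ := h
  obtain ⟨⟨t', ht', h1', h2', h3', h4'⟩, h5', h6'⟩ := h'
  have c1 := ((isOcc_iff w t).1 (hJ t ht)).2
  have c2 := ((isOcc_iff w t').1 (hJ t' ht')).2
  apply Fin.ext
  apply ch_unique (a := i) c1 c2 h1 h2 h1' h2' h3 h4 h3' h4'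
  rw [val_eq, val_eq, val_eq, h5, h5']
  rcases sw_cases i (w x) with h | h | h
  · exact absurd (by rw [h5, h.1]) h6
  · left; omega
  · right; omega

open Classical in
include hJ in
lemma locked_card : (univ.filter fun x => Locked i J w x ∧ w x = i.castSucc).card =
    (univ.filter fun x => Locked i J w x ∧ w x = i.succ).card := by
  apply Finset.card_bij (fun x hx => (Finset.mem_filter.1 hx).2.1.choose)
  · intro x hx
    have hr := (Finset.mem_filter.1 hx).2.1.choose_spec
    have hx2 := (Finset.mem_filter.1 hx).2.2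
    rw [Finset.mem_filter]
    refine ⟨Finset.mem_univ _, ⟨x, rel_symm i J w hr⟩, ?_⟩
    rw [hr.2.1, hx2]
    simp
  · intro x hx x' hx' he
    have hr := (Finset.mem_filter.1 hx).2.1.choose_spec
    have hr' := (Finset.mem_filter.1 hx').2.1.choose_spec
    rw [← he] at hr'
    exact rel_unique i J w hJ (rel_symm i J w hr) (rel_symm i J w hr')
  · intro y hy
    obtain ⟨x, hr⟩ := (Finset.mem_filter.1 hy).2.1
    have hy2 := (Finset.mem_filter.1 hy).2.2
    have hr' := rel_symm i J w hr
    have hx : x ∈ univ.filter fun x => Locked i J w x ∧ w x = i.castSucc := by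
      rw [Finset.mem_filter]
      refine ⟨Finset.mem_univ _, ⟨y, hr'⟩, ?_⟩
      rw [hr.2.1, hy2]
      simp
    refine ⟨x, hx, ?_⟩
    exact rel_unique i J w hJ (Finset.mem_filter.1 hx).2.1.choose_spec hr'

open Classical in
include hJ in
lemma phi_content (c : Fin (m + 1)) : (univ.filter fun x => phi i J w x = c).card =
    (univ.filter fun x => w x = sw i c).card := by
  have key : ∀ c d : Fin (m + 1), sw i d = c →
      (univ.filter fun x => Locked i J w x ∧ w x = c).card =
        (univ.filter fun x => Locked i J w x ∧ w x = d).card →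
      (univ.filter fun x => phi i J w x = c).card = (univ.filter fun x => w x = d).card := by
    intro c d hcd hcard
    have h1 : (univ.filter fun x => phi i J w x = c) =
        (univ.filter fun x => Locked i J w x ∧ w x = c) ∪
          (univ.filter fun x => ¬ Locked i J w x ∧ w x = d) := by
      ext x
      simp only [mem_filter, mem_univ, true_and, mem_union]
      by_cases hx : Locked i J w x
      · have : phi i J w x = w x := if_pos hx
        rw [this]
        simp [hx]
      · have : phi i J w x = sw i (w x) := if_neg hx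
        rw [this]
        simp only [hx, false_and, false_or, not_false_eq_true, true_and]
        rw [← hcd]
        exact (sw i).injective.eq_iff
    have h2 : (univ.filter fun x => w x = d) =
        (univ.filter fun x => Locked i J w x ∧ w x = d) ∪
          (univ.filter fun x => ¬ Locked i J w x ∧ w x = d) := by
      ext x
      simp only [mem_filter, mem_univ, true_and, mem_union]
      tauto
    rw [h1, h2, card_union_of_disjoint, card_union_of_disjoint, hcard]
    · rw [Finset.disjoint_filter]
      tauto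
    · rw [Finset.disjoint_filter]
      tauto
  have hl := locked_card i J w hJ
  apply key c (sw i c) (by simp)
  rcases sw_cases i c with h | h | h
  · rw [h.1]
  · have h1 : c = i.castSucc := Fin.ext h.1
    have h2 : sw i c = i.succ := Fin.ext h.2
    rw [h2, h1]
    exact hl
  · have h1 : c = i.succ := Fin.ext h.1
    have h2 : sw i c = i.castSucc := Fin.ext h.2
    rw [h2, h1]
    exact hl.symm

end exchange

/-! ### inclusion-exclusion -/

lemma incl_excl {α β : Type*} (A : Finset α) (B : Finset β) (U : Finset ℕ) (f : α → Finset ℕ)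
    (g : β → Finset ℕ) (hf : ∀ a ∈ A, f a ⊆ U) (hg : ∀ b ∈ B, g b ⊆ U)
    (h : ∀ J ⊆ U, (A.filter fun a => J ⊆ f a).card = (B.filter fun b => J ⊆ g b).card) :
    ∀ (r : ℕ) (J : Finset ℕ), J ⊆ U → (U \ J).card = r →
      (A.filter fun a => f a = J).card = (B.filter fun b => g b = J).card := by
  intro r
  induction r using Nat.strong_induction_on with
  | _ r ih =>
    intro J hJ hr
    have h1 : (A.filter fun a => J ⊆ f a).card =
        ∑ J' ∈ U.powerset.filter (fun J' => J ⊆ J'), (A.filter fun a => f a = J').card := by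
      rw [Finset.card_eq_sum_card_fiberwise (f := f) (t := U.powerset.filter (fun J' => J ⊆ J'))]
      · apply Finset.sum_congr rfl
        intro J' hJ'
        congr 1
        ext a
        simp only [mem_filter, mem_powerset] at hJ' ⊢
        constructor
        · rintro ⟨⟨h1, h2⟩, h3⟩
          exact ⟨h1, h3⟩
        · rintro ⟨h1, h3⟩
          exact ⟨⟨h1, by rw [h3]; exact hJ'.2⟩, h3⟩
      · intro a ha
        simp only [Finset.coe_filter, Set.mem_ofPred_eq, mem_powerset] at ha ⊢
        exact ⟨hf a ha.1, ha.2⟩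
    have h2 : (B.filter fun b => J ⊆ g b).card =
        ∑ J' ∈ U.powerset.filter (fun J' => J ⊆ J'), (B.filter fun b => g b = J').card := by
      rw [Finset.card_eq_sum_card_fiberwise (f := g) (t := U.powerset.filter (fun J' => J ⊆ J'))]
      · apply Finset.sum_congr rfl
        intro J' hJ'
        congr 1
        ext a
        simp only [mem_filter, mem_powerset] at hJ' ⊢
        constructor
        · rintro ⟨⟨h1, h2⟩, h3⟩
          exact ⟨h1, h3⟩
        · rintro ⟨h1, h3⟩
          exact ⟨⟨h1, by rw [h3]; exact hJ'.2⟩, h3⟩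
      · intro a ha
        simp only [Finset.coe_filter, Set.mem_ofPred_eq, mem_powerset] at ha ⊢
        exact ⟨hg a ha.1, ha.2⟩
    have hmem : J ∈ U.powerset.filter (fun J' => J ⊆ J') := by
      simp [hJ]
    have h3 := h J hJ
    rw [h1, h2, ← Finset.add_sum_erase _ _ hmem, ← Finset.add_sum_erase _ _ hmem] at h3
    have h4 : ∑ J' ∈ (U.powerset.filter (fun J' => J ⊆ J')).erase J,
          (A.filter fun a => f a = J').card =
        ∑ J' ∈ (U.powerset.filter (fun J' => J ⊆ J')).erase J,
          (B.filter fun b => g b = J').card := by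
      apply Finset.sum_congr rfl
      intro J' hJ'
      simp only [mem_erase, mem_filter, mem_powerset] at hJ'
      have hss : J ⊂ J' := Finset.ssubset_iff_subset_ne.2 ⟨hJ'.2.2, Ne.symm hJ'.1⟩
      have hlt : (U \ J').card < r := by
        rw [← hr]
        apply Finset.card_lt_card
        obtain ⟨a, ha, haJ⟩ := Finset.exists_of_ssubset hss
        exact (Finset.ssubset_iff_of_subset (Finset.sdiff_subset_sdiff le_rfl hss.1)).2
          ⟨a, by simp [hJ'.2.1 ha, haJ], by simp [ha]⟩
      exact ih _ hlt J' hJ'.2.1 rfl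
    omega

lemma card_of_excl {α β : Type*} (A : Finset α) (B : Finset β) (U : Finset ℕ) (f : α → Finset ℕ)
    (g : β → Finset ℕ) (hf : ∀ a ∈ A, f a ⊆ U) (hg : ∀ b ∈ B, g b ⊆ U)
    (h : ∀ J ⊆ U, (A.filter fun a => J ⊆ f a).card = (B.filter fun b => J ⊆ g b).card) (s : ℕ) :
    (A.filter fun a => (f a).card = s).card = (B.filter fun b => (g b).card = s).card := by
  have key := incl_excl A B U f g hf hg h
  have h1 : (A.filter fun a => (f a).card = s).card =
      ∑ J' ∈ U.powerset.filter (fun J' => J'.card = s), (A.filter fun a => f a = J').card := by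
    rw [Finset.card_eq_sum_card_fiberwise (f := f) (t := U.powerset.filter (fun J' => J'.card = s))]
    · apply Finset.sum_congr rfl
      intro J' hJ'
      congr 1
      ext a
      simp only [mem_filter, mem_powerset] at hJ' ⊢
      constructor
      · rintro ⟨⟨h1, h2⟩, h3⟩
        exact ⟨h1, h3⟩
      · rintro ⟨h1, h3⟩
        exact ⟨⟨h1, by rw [h3]; exact hJ'.2⟩, h3⟩
    · intro a ha
      simp only [Finset.coe_filter, Set.mem_ofPred_eq, mem_powerset] at ha ⊢
      exact ⟨hf a ha.1, ha.2⟩
  have h2 : (B.filter fun b => (g b).card = s).card =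
      ∑ J' ∈ U.powerset.filter (fun J' => J'.card = s), (B.filter fun b => g b = J').card := by
    rw [Finset.card_eq_sum_card_fiberwise (f := g) (t := U.powerset.filter (fun J' => J'.card = s))]
    · apply Finset.sum_congr rfl
      intro J' hJ'
      congr 1
      ext a
      simp only [mem_filter, mem_powerset] at hJ' ⊢
      constructor
      · rintro ⟨⟨h1, h2⟩, h3⟩
        exact ⟨h1, h3⟩
      · rintro ⟨h1, h3⟩
        exact ⟨⟨h1, by rw [h3]; exact hJ'.2⟩, h3⟩
    · intro a ha
      simp only [Finset.coe_filter, Set.mem_ofPred_eq, mem_powerset] at ha ⊢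
      exact ⟨hg a ha.1, ha.2⟩
  rw [h1, h2]
  apply Finset.sum_congr rfl
  intro J' hJ'
  simp only [mem_filter, mem_powerset] at hJ'
  exact key _ J' hJ'.1 rfl

open Classical in
lemma words_swap {m : ℕ} (i : Fin m) (N : ℕ) (k : Fin (m + 1) → ℕ) (s : ℕ) :
    (words pat N k s).ncard = (words pat N (fun c => k (sw i c)) s).ncard := by
  set A : Finset (Fin N → Fin (m + 1)) :=
    univ.filter fun w => ∀ c, (univ.filter fun x => w x = c).card = k c with hA
  set B : Finset (Fin N → Fin (m + 1)) :=
    univ.filter fun w => ∀ c, (univ.filter fun x => w x = c).card = k (sw i c) with hB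
  have h1 : words pat N k s = ((A.filter fun w => (occSet pat w).card = s : Finset _) :
      Set (Fin N → Fin (m + 1))) := by
    ext w
    simp [words, hA]
  have h2 : words pat N (fun c => k (sw i c)) s =
      ((B.filter fun w => (occSet pat w).card = s : Finset _) : Set (Fin N → Fin (m + 1))) := by
    ext w
    simp [words, hB]
  rw [h1, h2, Set.ncard_coe_finset, Set.ncard_coe_finset]
  apply card_of_excl A B (range (N + 1)) (occSet pat) (occSet pat)
  · intro w _
    exact Finset.filter_subset _ _
  · intro w _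
    exact Finset.filter_subset _ _
  · intro J hJ
    have hsub : ∀ w : Fin N → Fin (m + 1), J ⊆ occSet pat w ↔ ∀ t ∈ J, IsOcc pat w t := by
      intro w
      unfold occSet
      constructor
      · intro h t ht
        exact (Finset.mem_filter.1 (h ht)).2
      · intro h t ht
        exact Finset.mem_filter.2 ⟨hJ ht, h t ht⟩
    apply Finset.card_nbij' (phi i J) (phi i J)
    · intro w hw
      simp only [Finset.coe_filter, hA, hB, mem_filter, mem_univ, true_and, Set.mem_ofPred_eq] at hw ⊢
      have hocc := (hsub w).1 hw.2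
      refine ⟨?_, (hsub _).2 (phi_occ i J w hocc)⟩
      intro c
      rw [phi_content i J w hocc c]
      exact hw.1 _
    · intro w hw
      simp only [Finset.coe_filter, hA, hB, mem_filter, mem_univ, true_and, Set.mem_ofPred_eq] at hw ⊢
      have hocc := (hsub w).1 hw.2
      refine ⟨?_, (hsub _).2 (phi_occ i J w hocc)⟩
      intro c
      rw [phi_content i J w hocc c, hw.1]
      simp
    · intro w hw
      simp only [Finset.coe_filter, Set.mem_ofPred_eq] at hw
      exact phi_phi i J w ((hsub w).1 hw.2)
    · intro w hw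
      simp only [Finset.coe_filter, Set.mem_ofPred_eq] at hw
      exact phi_phi i J w ((hsub w).1 hw.2)

/-- `12435` is stable -/
lemma stable_pat : Stable pat := by
  intro n k σ s
  cases n with
  | zero =>
    have : (fun c => k (σ c)) = k := by
      funext c
      exact c.elim0
    rw [this]
  | succ m =>
    have key : ∀ N (k : Fin (m + 1) → ℕ),
        (words pat N k s).ncard = (words pat N (fun c => k (σ c)) s).ncard := by
      have hσ : σ ∈ Submonoid.closure
          (Set.range fun i : Fin m => Equiv.swap i.castSucc i.succ) := by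
        rw [Equiv.Perm.mclosure_swap_castSucc_succ]
        trivial
      induction hσ using Submonoid.closure_induction with
      | mem x hx =>
        obtain ⟨i, rfl⟩ := hx
        intro N k
        exact words_swap i N k s
      | one => intro N k; rfl
      | mul x y _ _ hx hy =>
        intro N k
        rw [hx N k, hy N (fun c => k (x c))]
        rfl
    unfold count
    rw [Equiv.sum_comp σ k]
    exact key _ k

/-- **Disproof of Q1**: there is a consecutive pattern (with distinct letters) which is stable but not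
monotone, for instance `12435`. -/
theorem result : ∃ (ℓ : ℕ) (p : Equiv.Perm (Fin ℓ)), ¬ IsMonotonePattern p ∧ Stable p := by
  refine ⟨5, pat, ?_, stable_pat⟩
  unfold IsMonotonePattern
  decide

end Pool.Agent.Results.MP_5514a7_co.StableNonMonotone
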